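import Pool.Agent.H695R3.PP.Stmts

/-!
# The probability of the second bad event (TaskG2)
-/

set_option autoImplicit false

open scoped BigOperators ENNReal
open MeasureTheory

namespace Run7.h199.PP

open Pool.Agent.H695R3.PP

theorem isEig_congr {V V' : ℤ → ℝ} {a b : ℤ} {E : ℝ} {ψ : ℤ → ℝ}
    (h : ∀ n, a ≤ n → n ≤ b → V n = V' n) (hE : IsEig V a b E ψ) : IsEig V' a b E ψ := by
  refine ⟨hE.1, hE.2.1, fun n h1 h2 => ?_⟩
  rw [← h n h1 h2]
  exact hE.2.2 n h1 h2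

theorem exists_site {a b : ℤ} {ψ : ℤ → ℝ} (h : nsq a b ψ = 1) (N : ℝ) (hN : 0 < N)
    (hc : ((Finset.Icc a b).card : ℝ) ≤ N) : ∃ j ∈ Finset.Icc a b, 1 / N ≤ ψ j ^ 2 := by
  by_contra hcon
  push Not at hcon
  have hne : (Finset.Icc a b).Nonempty := by
    rw [Finset.nonempty_iff_ne_empty]
    intro h0
    unfold nsq at h
    rw [h0, Finset.sum_empty] at h
    norm_num at h
  have : nsq a b ψ < ∑ _j ∈ Finset.Icc a b, 1 / N :=
    Finset.sum_lt_sum_of_nonempty hne hcon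
  rw [h, Finset.sum_const, nsmul_eq_mul] at this
  have h2 : ((Finset.Icc a b).card : ℝ) * (1 / N) ≤ N * (1 / N) := by
    gcongr
  rw [mul_one_div_cancel hN.ne'] at h2
  linarith

/-- the event for one splitting point `m` and one site `j` -/
def Ev (W : ℤ → ℝ) (ε d κ : ℝ) (L : ℤ) (m j : ℤ) : Set (ℤ → ℝ) :=
  {x | ∃ E φ E' φ', IsEig (fun n => W n + ε * x n) (-L) (m - 1) E φ ∧
    IsEig (fun n => W n + ε * x n) m L E' φ' ∧ |E - E'| ≤ 3 * d ∧ κ ≤ φ' j ^ 2}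

theorem Ev_meas (h : TaskClosed2) (W : ℤ → ℝ) (ε d κ : ℝ) (L : ℤ) (m j : ℤ) :
    MeasurableSet (Ev W ε d κ L m j) := by
  set C : Set ((ℝ × (ℤ → ℝ)) × (ℝ × (ℤ → ℝ))) :=
    {z | |z.1.1 - z.2.1| ≤ 3 * d ∧ κ ≤ (z.2.2 j) ^ 2} with hC
  have hCc : IsClosed C := by
    refine IsClosed.and ?_ ?_
    · exact isClosed_le (by fun_prop) continuous_const
    · exact isClosed_le continuous_const (by fun_prop)
  have hm : Measurable (fun x : ℤ → ℝ => (fun n => W n + ε * x n : ℤ → ℝ)) :=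
    measurable_pi_lambda _ fun n => by fun_prop
  have he : Ev W ε d κ L m j = (fun x : ℤ → ℝ => (fun n => W n + ε * x n : ℤ → ℝ)) ⁻¹'
      (⋃ R : ℕ, {V : ℤ → ℝ | ∃ (E : ℝ) (ψ : ℤ → ℝ) (E' : ℝ) (ψ' : ℤ → ℝ), |E| ≤ (R : ℝ) ∧
        |E'| ≤ (R : ℝ) ∧ IsEig V (-L) (m - 1) E ψ ∧
        IsEig V m L E' ψ' ∧ ((E, ψ), (E', ψ')) ∈ C}) := by
    ext x
    simp only [Ev, Set.mem_preimage, Set.mem_iUnion]
    constructor
    · rintro ⟨E, φ, E', φ', h1, h2, h3, h4⟩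
      obtain ⟨R, hR⟩ := exists_nat_ge (max |E| |E'|)
      exact ⟨R, E, φ, E', φ', (le_max_left _ _).trans hR, (le_max_right _ _).trans hR, h1, h2,
        h3, h4⟩
    · rintro ⟨R, E, φ, E', φ', -, -, h1, h2, h3, h4⟩
      exact ⟨E, φ, E', φ', h1, h2, h3, h4⟩
  rw [he]
  exact hm (MeasurableSet.iUnion fun R => (h _ _ _ _ _ C hCc).measurableSet)

theorem Ev_bound (hS : TaskSAP) (hcard : TaskCard) (h : TaskClosed2) (W : ℤ → ℝ) (ε d κ : ℝ)
    (L : ℕ) (m j : ℤ) (hε : 0 < ε) (hd : 0 < d) (hκ : 0 < κ) (hm1 : -(L : ℤ) < m)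
    (hm2 : m ≤ L) (hj : m ≤ j) :
    PZ (Ev W ε d κ L m j) ≤ ENNReal.ofReal (1 / (2 * ε * κ)) * ENNReal.ofReal (12 * L * d) := by
  set A : (ℤ → ℝ) → Set ℝ := fun x => {E' | ∃ E φ,
    IsEig (fun n => W n + ε * x n) (-(L : ℤ)) (m - 1) E φ ∧ |E - E'| ≤ 3 * d} with hA
  have hAinv : ∀ x s, A (Function.update x j s) = A x := by
    intro x s
    have key : ∀ x y : ℤ → ℝ, (∀ n, n ≤ m - 1 → x n = y n) → A x ⊆ A y := by
      rintro x y hxy E' ⟨E, φ, h1, h2⟩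
      refine ⟨E, φ, isEig_congr (fun n _ hn => ?_) h1, h2⟩
      show W n + ε * x n = W n + ε * y n
      rw [hxy n hn]
    apply Set.Subset.antisymm
    · exact key _ _ fun n hn => Function.update_of_ne (by omega) _ _
    · exact key _ _ fun n hn => (Function.update_of_ne (by omega) _ _).symm
  have hvol : ∀ x, volume (A x) ≤ ENNReal.ofReal (12 * L * d) := by
    intro x
    obtain ⟨F, hF1, hF2⟩ := hcard (fun n => W n + ε * x n) (-(L : ℤ)) (m - 1) (by omega)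
    have hsub : A x ⊆ ⋃ E ∈ F, Set.Icc (E - 3 * d) (E + 3 * d) := by
      rintro E' ⟨E, φ, h1, h2⟩
      rw [abs_le] at h2
      refine Set.mem_biUnion (hF2 E φ h1) ⟨by linarith [h2.1, h2.2], by linarith [h2.1, h2.2]⟩
    refine (measure_mono hsub).trans ((measure_biUnion_finset_le F _).trans ?_)
    have : ∀ E ∈ F, volume (Set.Icc (E - 3 * d) (E + 3 * d)) = ENNReal.ofReal (6 * d) := by
      intro E _
      rw [Real.volume_Icc]
      congr 1; ring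
    rw [Finset.sum_congr rfl this, Finset.sum_const, nsmul_eq_mul,
      ← ENNReal.ofReal_natCast, ← ENNReal.ofReal_mul (by positivity)]
    apply ENNReal.ofReal_le_ofReal
    have hc : (F.card : ℝ) ≤ 2 * L := by
      have : (F.card : ℤ) ≤ 2 * L := by omega
      exact_mod_cast this
    nlinarith
  have hsap := hS W ε κ m L j A (Ev W ε d κ L m j) hε hκ (Ev_meas h W ε d κ L m j) hAinv (by
    rintro x ⟨E, φ, E', φ', h1, h2, h3, h4⟩
    exact ⟨E', ⟨E, φ, h1, h3⟩, φ', h2, h4⟩)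
  refine hsap.trans ?_
  calc ∫⁻ x, ENNReal.ofReal (1 / (2 * ε * κ)) * volume (A x) ∂PZ
      ≤ ∫⁻ _x, ENNReal.ofReal (1 / (2 * ε * κ)) * ENNReal.ofReal (12 * L * d) ∂PZ :=
        lintegral_mono fun x => mul_le_mul_right (hvol x) _
    _ = _ := by rw [lintegral_const, measure_univ, mul_one]

theorem g2 (hS : TaskSAP) (hcard : TaskCard) (hsplit : TaskSplit) (h : TaskClosed2) :
    TaskG2 := by
  refine ⟨48, by norm_num, fun ε d W L hε hd => ?_⟩
  set κ : ℝ := 1 / (2 * (L : ℝ) + 1) with hκd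
  have hκ : 0 < κ := by positivity
  set I : Finset ℤ := Finset.Ioc (-(L : ℤ)) L with hI
  have hsub : {x : ℤ → ℝ | Bad2 L d (fun n => W n + ε * x n)} ⊆
      ⋃ m ∈ I, ⋃ j ∈ Finset.Icc m (L : ℤ), Ev W ε d κ L m j := by
    rintro x ⟨E, ψ, E', ψ', h1, h2, h3, h4⟩
    obtain ⟨m, hm1, hm2, lam, φ, lam', φ', g1, g2, g3⟩ :=
      hsplit _ _ _ E E' d ψ ψ' (by omega) h1 h2 h3 h4
    have hc : ((Finset.Icc m (L : ℤ)).card : ℝ) ≤ 2 * (L : ℝ) + 1 := by
      have : ((Finset.Icc m (L : ℤ)).card : ℤ) ≤ 2 * L + 1 := by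
        rw [Int.card_Icc]; omega
      exact_mod_cast this
    obtain ⟨j, hj, hj2⟩ := exists_site g2.2.1 (2 * (L : ℝ) + 1) (by positivity) hc
    refine Set.mem_biUnion (Finset.mem_Ioc.2 ⟨hm1, hm2⟩) (Set.mem_biUnion hj ?_)
    exact ⟨lam, φ, lam', φ', g1, g2, g3, hj2⟩
  set β : ℝ≥0∞ := ENNReal.ofReal (1 / (2 * ε * κ)) * ENNReal.ofReal (12 * L * d) with hβ
  calc PZ {x | Bad2 L d (fun n => W n + ε * x n)}
      ≤ PZ (⋃ m ∈ I, ⋃ j ∈ Finset.Icc m (L : ℤ), Ev W ε d κ L m j) := measure_mono hsub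
    _ ≤ ∑ m ∈ I, PZ (⋃ j ∈ Finset.Icc m (L : ℤ), Ev W ε d κ L m j) :=
        measure_biUnion_finset_le _ _
    _ ≤ ∑ m ∈ I, ∑ j ∈ Finset.Icc m (L : ℤ), PZ (Ev W ε d κ L m j) :=
        Finset.sum_le_sum fun m _ => measure_biUnion_finset_le _ _
    _ ≤ ∑ m ∈ I, ∑ _j ∈ Finset.Icc m (L : ℤ), β := by
        refine Finset.sum_le_sum fun m hm => Finset.sum_le_sum fun j hj => ?_
        rw [hI, Finset.mem_Ioc] at hm
        rw [Finset.mem_Icc] at hj
        exact Ev_bound hS hcard h W ε d κ L m j hε hd hκ hm.1 hm.2 hj.1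
    _ ≤ ∑ _m ∈ I, ENNReal.ofReal (2 * L) * β := by
        refine Finset.sum_le_sum fun m hm => ?_
        rw [hI, Finset.mem_Ioc] at hm
        rw [Finset.sum_const, nsmul_eq_mul, ← ENNReal.ofReal_natCast]
        gcongr
        have : ((Finset.Icc m (L : ℤ)).card : ℤ) ≤ 2 * L := by
          rw [Int.card_Icc]; omega
        exact_mod_cast this
    _ = ENNReal.ofReal (2 * L) * (ENNReal.ofReal (2 * L) * β) := by
        rw [Finset.sum_const, nsmul_eq_mul, ← ENNReal.ofReal_natCast]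
        congr 2
        have : ((I.card : ℕ) : ℤ) = 2 * L := by
          rw [hI, Int.card_Ioc]; omega
        exact_mod_cast this
    _ ≤ ENNReal.ofReal (48 * ((L : ℝ) + 1) ^ 4 * d / ε) := by
        rw [hβ, ← ENNReal.ofReal_mul (by positivity), ← ENNReal.ofReal_mul (by positivity),
          ← ENNReal.ofReal_mul (by positivity)]
        apply ENNReal.ofReal_le_ofReal
        have e : 2 * (L : ℝ) * (2 * L * (1 / (2 * ε * κ) * (12 * L * d))) =
            24 * L ^ 3 * (2 * L + 1) * d / ε := by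
          rw [hκd]; field_simp; ring
        rw [e]
        have hL : (0 : ℝ) ≤ L := Nat.cast_nonneg L
        have h1 : 24 * (L : ℝ) ^ 3 * (2 * L + 1) ≤ 48 * ((L : ℝ) + 1) ^ 4 := by
          have h2 : (L : ℝ) ^ 3 ≤ ((L : ℝ) + 1) ^ 3 := by gcongr; linarith
          have h3 : (2 * (L : ℝ) + 1) ≤ 2 * ((L : ℝ) + 1) := by linarith
          calc 24 * (L : ℝ) ^ 3 * (2 * L + 1) ≤ 24 * ((L : ℝ) + 1) ^ 3 * (2 * ((L : ℝ) + 1)) := by
                gcongr
            _ = _ := by ring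
        gcongr

end Run7.h199.PP
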