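import Pool.Agent.H695R3.PP.Stmts

/-!
# Spectral averaging (TaskSA)
-/

set_option autoImplicit false

open scoped BigOperators ENNReal
open MeasureTheory

namespace Run7.h199.PP

open Pool.Agent.H695R3.PP

/-- One-sided solution: `(u j, u (j-1))`. -/
noncomputable def so (w : ℕ → ℝ) (E : ℝ) : ℕ → ℝ × ℝ
  | 0 => (1, 0)
  | (j + 1) => ((E - w j) * (so w E j).1 - (so w E j).2, (so w E j).1)

theorem so_zero (w : ℕ → ℝ) (E : ℝ) : so w E 0 = (1, 0) := rfl

theorem so_succ1 (w : ℕ → ℝ) (E : ℝ) (j : ℕ) :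
    (so w E (j + 1)).1 = (E - w j) * (so w E j).1 - (so w E j).2 := rfl

theorem so_succ2 (w : ℕ → ℝ) (E : ℝ) (j : ℕ) : (so w E (j + 1)).2 = (so w E j).1 := rfl

/-- Wronskian sum -/
noncomputable def Ws (w : ℕ → ℝ) (E : ℝ) (j : ℕ) : ℝ := ∑ i ∈ Finset.range j, (so w E i).1 ^ 2

theorem Ws_nonneg (w : ℕ → ℝ) (E : ℝ) (j : ℕ) : 0 ≤ Ws w E j :=
  Finset.sum_nonneg fun _ _ => sq_nonneg _

theorem so_deriv (w : ℕ → ℝ) (E : ℝ) (j : ℕ) : ∃ d₁ d₂ : ℝ,
    HasDerivAt (fun E => (so w E j).1) d₁ E ∧ HasDerivAt (fun E => (so w E j).2) d₂ E ∧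
      d₁ * (so w E j).2 - (so w E j).1 * d₂ = Ws w E j := by
  induction j with
  | zero =>
    refine ⟨0, 0, ?_, ?_, ?_⟩
    · simpa [so] using hasDerivAt_const E (1 : ℝ)
    · simpa [so] using hasDerivAt_const E (0 : ℝ)
    · simp [Ws]
  | succ j ih =>
    obtain ⟨d₁, d₂, h₁, h₂, hW⟩ := ih
    have hid : HasDerivAt (fun E : ℝ => E - w j) 1 E := by
      simpa using (hasDerivAt_id E).sub_const (w j)
    refine ⟨1 * (so w E j).1 + (E - w j) * d₁ - d₂, d₁, ?_, ?_, ?_⟩
    · exact (hid.mul h₁).sub h₂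
    · exact h₁
    · have : Ws w E (j + 1) = Ws w E j + (so w E j).1 ^ 2 := Finset.sum_range_succ _ _
      rw [this, ← hW, so_succ1, so_succ2]
      ring

theorem so_cont (w : ℕ → ℝ) (j : ℕ) :
    Continuous (fun E => (so w E j).1) ∧ Continuous (fun E => (so w E j).2) := by
  constructor
  · rw [continuous_iff_continuousAt]
    intro E
    obtain ⟨d₁, d₂, h₁, h₂, _⟩ := so_deriv w E j
    exact h₁.continuousAt
  · rw [continuous_iff_continuousAt]
    intro E
    obtain ⟨d₁, d₂, h₁, h₂, _⟩ := so_deriv w E j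
    exact h₂.continuousAt

theorem Ws_cont (w : ℕ → ℝ) (j : ℕ) : Continuous (fun E => Ws w E j) := by
  unfold Ws
  exact continuous_finsetSum _ fun i _ => (so_cont w i).1.pow 2

/-- derivative of the quotient -/
theorem quot_deriv (w : ℕ → ℝ) (E : ℝ) (j : ℕ) (h : (so w E j).1 ≠ 0) :
    HasDerivAt (fun E => (so w E j).2 / (so w E j).1) (-(Ws w E j / (so w E j).1 ^ 2)) E := by
  obtain ⟨d₁, d₂, h₁, h₂, hW⟩ := so_deriv w E j
  refine (h₂.div h₁ h).congr_deriv ?_
  rw [← hW]
  field_simp
  ring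

/-- the solution follows the recursion -/
theorem follow (w : ℕ → ℝ) (E : ℝ) (f : ℕ → ℝ) (p : ℕ)
    (h1 : 0 < p → f 1 = (E - w 0) * f 0)
    (h : ∀ j, j + 1 < p → f (j + 2) = (E - w (j + 1)) * f (j + 1) - f j) :
    ∀ j, j ≤ p → f j = f 0 * (so w E j).1 ∧ (0 < j → f (j - 1) = f 0 * (so w E j).2) := by
  intro j
  induction j with
  | zero => intro _; simp [so]
  | succ j ih =>
    intro hj
    obtain ⟨a1, a2⟩ := ih (by omega)
    refine ⟨?_, ?_⟩
    · rcases Nat.eq_zero_or_pos j with h0 | h0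
      · subst h0
        rw [so_succ1, so_zero, h1 (by omega)]
        ring
      · obtain ⟨i, rfl⟩ : ∃ i, j = i + 1 := ⟨j - 1, by omega⟩
        have e1 := h i (by omega)
        have e2 := a2 h0
        simp only [Nat.add_sub_cancel] at e2
        rw [so_succ1, show i + 1 + 1 = i + 2 from rfl, e1, a1, e2]
        ring
    · intro _
      rw [so_succ2]
      simpa using a1

theorem sum_left (f : ℤ → ℝ) (a : ℤ) (p : ℕ) :
    ∑ n ∈ Finset.Ico a (a + p), f n = ∑ i ∈ Finset.range p, f (a + i) := by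
  induction p with
  | zero => simp
  | succ p ih =>
    have : Finset.Ico a (a + (p + 1 : ℕ)) = insert (a + p) (Finset.Ico a (a + p)) := by
      ext x
      simp only [Finset.mem_Ico, Finset.mem_insert]
      push_cast
      omega
    rw [this, Finset.sum_insert (by simp), ih, Finset.sum_range_succ, add_comm]

theorem sum_right (f : ℤ → ℝ) (b : ℤ) (q : ℕ) :
    ∑ n ∈ Finset.Ioc (b - q) b, f n = ∑ i ∈ Finset.range q, f (b - i) := by
  induction q with
  | zero => simp
  | succ q ih =>
    have : Finset.Ioc (b - (q + 1 : ℕ)) b = insert (b - q) (Finset.Ioc (b - q) b) := by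
      ext x
      simp only [Finset.mem_Ioc, Finset.mem_insert]
      push_cast
      omega
    rw [this, Finset.sum_insert (by simp), ih, Finset.sum_range_succ, add_comm]

theorem split_sum (f : ℤ → ℝ) (a b m : ℤ) (p q : ℕ) (hp : m = a + p) (hq : m = b - q) :
    ∑ n ∈ Finset.Icc a b, f n = (∑ i ∈ Finset.range p, f (a + i)) + f m +
      ∑ i ∈ Finset.range q, f (b - i) := by
  rw [← sum_left, ← sum_right]
  have : Finset.Icc a b = (Finset.Ico a (a + p)) ∪ ({m} ∪ Finset.Ioc (b - q) b) := by
    ext x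
    simp only [Finset.mem_Icc, Finset.mem_union, Finset.mem_Ico, Finset.mem_singleton,
      Finset.mem_Ioc]
    omega
  rw [this, Finset.sum_union, Finset.sum_union, Finset.sum_singleton]
  · ring
  · rw [Finset.disjoint_left]
    intro x hx
    simp only [Finset.mem_singleton] at hx
    simp only [Finset.mem_Ioc, not_and]
    omega
  · rw [Finset.disjoint_left]
    intro x hx
    simp only [Finset.mem_Ico] at hx
    simp only [Finset.mem_union, Finset.mem_singleton, Finset.mem_Ioc, not_or, not_and]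
    omega

/-- the pointwise identities -/
theorem key (V : ℤ → ℝ) (a b m : ℤ) (t E : ℝ) (ψ : ℤ → ℝ) (p q : ℕ) (hp : m = a + p)
    (hq : m = b - q) (h : IsEig (Function.update V m t) a b E ψ) (hm : ψ m ≠ 0) :
    (so (fun j => V (a + j)) E p).1 ≠ 0 ∧ (so (fun j => V (b - j)) E q).1 ≠ 0 ∧
    t = E - (so (fun j => V (a + j)) E p).2 / (so (fun j => V (a + j)) E p).1 -
      (so (fun j => V (b - j)) E q).2 / (so (fun j => V (b - j)) E q).1 ∧
    1 + Ws (fun j => V (a + j)) E p / (so (fun j => V (a + j)) E p).1 ^ 2 +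
      Ws (fun j => V (b - j)) E q / (so (fun j => V (b - j)) E q).1 ^ 2 = 1 / ψ m ^ 2 := by
  obtain ⟨h0, h1, h2⟩ := h
  have hf := follow (fun j => V (a + j)) E (fun j => ψ (a + j)) p
    (by
      intro hp0
      have e := h2 a le_rfl (by omega)
      rw [Function.update_of_ne (by omega), h0 (a - 1) (Or.inl (by omega))] at e
      simp only [Nat.cast_one, Nat.cast_zero, add_zero]
      linarith)
    (by
      intro j hj
      have e := h2 (a + (j + 1 : ℕ)) (by push_cast; omega) (by push_cast; omega)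
      rw [Function.update_of_ne (by push_cast; omega),
        show a + ((j + 1 : ℕ) : ℤ) + 1 = a + ((j + 2 : ℕ) : ℤ) by push_cast; ring,
        show a + ((j + 1 : ℕ) : ℤ) - 1 = a + ((j : ℕ) : ℤ) by push_cast; ring] at e
      linarith)
  have hg := follow (fun j => V (b - j)) E (fun j => ψ (b - j)) q
    (by
      intro hq0
      have e := h2 b (by omega) le_rfl
      rw [Function.update_of_ne (by omega), h0 (b + 1) (Or.inr (by omega))] at e
      simp only [Nat.cast_one, Nat.cast_zero, sub_zero]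
      linarith)
    (by
      intro j hj
      have e := h2 (b - (j + 1 : ℕ)) (by push_cast; omega) (by push_cast; omega)
      rw [Function.update_of_ne (by push_cast; omega),
        show b - ((j + 1 : ℕ) : ℤ) + 1 = b - ((j : ℕ) : ℤ) by push_cast; ring,
        show b - ((j + 1 : ℕ) : ℤ) - 1 = b - ((j + 2 : ℕ) : ℤ) by push_cast; ring] at e
      linarith)
  simp only [Nat.cast_zero, add_zero, sub_zero] at hf hg
  set u := so (fun j => V (a + j)) E with hu
  set v := so (fun j => V (b - j)) E with hv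
  have ep : ψ m = ψ a * (u p).1 := by rw [hp]; exact (hf p le_rfl).1
  have eq' : ψ m = ψ b * (v q).1 := by rw [hq]; exact (hg q le_rfl).1
  have hup : (u p).1 ≠ 0 := by
    intro h; rw [h, mul_zero] at ep; exact hm ep
  have hvq : (v q).1 ≠ 0 := by
    intro h; rw [h, mul_zero] at eq'; exact hm eq'
  have ha : ψ a ≠ 0 := by
    intro h; rw [h, zero_mul] at ep; exact hm ep
  have hb : ψ b ≠ 0 := by
    intro h; rw [h, zero_mul] at eq'; exact hm eq'
  have em1 : ψ (m - 1) = ψ a * (u p).2 := by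
    rcases Nat.eq_zero_or_pos p with h | h
    · subst h
      rw [h0 (m - 1) (Or.inl (by omega)), hu, so_zero, mul_zero]
    · have := (hf p le_rfl).2 h
      rw [← this, hp, Nat.cast_sub h]
      congr 1; push_cast; ring
  have em2 : ψ (m + 1) = ψ b * (v q).2 := by
    rcases Nat.eq_zero_or_pos q with h | h
    · subst h
      rw [h0 (m + 1) (Or.inr (by omega)), hv, so_zero, mul_zero]
    · have := (hg q le_rfl).2 h
      rw [← this, hq, Nat.cast_sub h]
      congr 1; push_cast; ring
  refine ⟨hup, hvq, ?_, ?_⟩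
  · have e := h2 m (by omega) (by omega)
    rw [Function.update_self] at e
    have q1 : (u p).2 / (u p).1 = ψ (m - 1) / ψ m := by
      rw [em1, ep]; field_simp
    have q2 : (v q).2 / (v q).1 = ψ (m + 1) / ψ m := by
      rw [em2, eq']; field_simp
    rw [q1, q2]
    field_simp
    linarith
  · have s1 : Ws (fun j => V (a + j)) E p / (u p).1 ^ 2 =
        (∑ i ∈ Finset.range p, ψ (a + i) ^ 2) / ψ m ^ 2 := by
      have : ∑ i ∈ Finset.range p, ψ (a + i) ^ 2 = ψ a ^ 2 * Ws (fun j => V (a + j)) E p := by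
        unfold Ws
        rw [Finset.mul_sum]
        refine Finset.sum_congr rfl fun i hi => ?_
        rw [(hf i (Finset.mem_range.1 hi).le).1]
        ring
      rw [this, ep]
      field_simp
    have s2 : Ws (fun j => V (b - j)) E q / (v q).1 ^ 2 =
        (∑ i ∈ Finset.range q, ψ (b - i) ^ 2) / ψ m ^ 2 := by
      have : ∑ i ∈ Finset.range q, ψ (b - i) ^ 2 = ψ b ^ 2 * Ws (fun j => V (b - j)) E q := by
        unfold Ws
        rw [Finset.mul_sum]
        refine Finset.sum_congr rfl fun i hi => ?_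
        rw [(hg i (Finset.mem_range.1 hi).le).1]
        ring
      rw [this, eq']
      field_simp
    rw [s1, s2]
    unfold nsq at h1
    rw [split_sum (fun n => ψ n ^ 2) a b m p q hp hq] at h1
    field_simp
    linarith

theorem sa : TaskSA := by
  intro V a b m A κ hκ
  by_cases hab : a ≤ m ∧ m ≤ b
  swap
  · have : {t : ℝ | ∃ E ∈ A, ∃ ψ, IsEig (Function.update V m t) a b E ψ ∧ κ ≤ ψ m ^ 2} = ∅ := by
      rw [Set.eq_empty_iff_forall_notMem]
      rintro t ⟨E, _, ψ, h, hk⟩
      rw [h.1 m (by omega)] at hk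
      norm_num at hk
      linarith
    rw [this, measure_empty]
    simp
  obtain ⟨p, hp⟩ : ∃ p : ℕ, m = a + p := ⟨(m - a).toNat, by omega⟩
  obtain ⟨q, hq⟩ : ∃ q : ℕ, m = b - q := ⟨(b - m).toNat, by omega⟩
  set wl : ℕ → ℝ := fun j => V (a + j) with hwl
  set wr : ℕ → ℝ := fun j => V (b - j) with hwr
  set F : ℝ → ℝ := fun E => E - (so wl E p).2 / (so wl E p).1 - (so wr E q).2 / (so wr E q).1
    with hF
  set G : ℝ → ℝ := fun E => 1 + Ws wl E p / (so wl E p).1 ^ 2 + Ws wr E q / (so wr E q).1 ^ 2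
    with hG
  set S : Set ℝ := {E | (so wl E p).1 ≠ 0 ∧ (so wr E q).1 ≠ 0 ∧ G E ≤ 1 / κ} with hS
  have hGm : Measurable G := by
    have m1 := (Ws_cont wl p).measurable
    have m2 := (Ws_cont wr q).measurable
    have m3 := (so_cont wl p).1.measurable
    have m4 := (so_cont wr q).1.measurable
    exact ((measurable_const.add (m1.div (m3.pow_const 2))).add (m2.div (m4.pow_const 2)))
  have hSm : MeasurableSet S := by
    have m3 := (so_cont wl p).1.measurable
    have m4 := (so_cont wr q).1.measurable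
    have a1 : MeasurableSet {E | (so wl E p).1 ≠ 0} :=
      (m3 (measurableSet_singleton (0 : ℝ))).compl
    have a2 : MeasurableSet {E | (so wr E q).1 ≠ 0} :=
      (m4 (measurableSet_singleton (0 : ℝ))).compl
    have a3 : MeasurableSet {E | G E ≤ 1 / κ} := measurableSet_le hGm measurable_const
    exact a1.inter (a2.inter a3)
  have hsub : {t : ℝ | ∃ E ∈ A, ∃ ψ, IsEig (Function.update V m t) a b E ψ ∧ κ ≤ ψ m ^ 2} ⊆
      F '' (toMeasurable volume A ∩ S) := by
    rintro t ⟨E, hE, ψ, h, hk⟩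
    have hm : ψ m ≠ 0 := by
      intro h0; rw [h0] at hk; norm_num at hk; linarith
    obtain ⟨k1, k2, k3, k4⟩ := key V a b m t E ψ p q hp hq h hm
    refine ⟨E, ⟨subset_toMeasurable volume A hE, k1, k2, ?_⟩, k3.symm⟩
    show 1 + Ws wl E p / (so wl E p).1 ^ 2 + Ws wr E q / (so wr E q).1 ^ 2 ≤ 1 / κ
    rw [k4]
    exact one_div_le_one_div_of_le hκ hk
  have hM : MeasurableSet (toMeasurable volume A ∩ S) :=
    (measurableSet_toMeasurable volume A).inter hSm
  have hder : ∀ x ∈ toMeasurable volume A ∩ S,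
      HasFDerivWithinAt F (ContinuousLinearMap.toSpanSingleton ℝ (G x)) (toMeasurable volume A ∩ S) x := by
    rintro x ⟨_, x1, x2, x3⟩
    have h1 := quot_deriv wl x p x1
    have h2 := quot_deriv wr x q x2
    have h3 := ((hasDerivAt_id x).sub h1).sub h2
    have h4 : HasDerivAt F (G x) x := by
      refine h3.congr_deriv ?_
      simp only [hG]
      ring
    exact h4.hasFDerivAt.hasFDerivWithinAt
  calc volume {t : ℝ | ∃ E ∈ A, ∃ ψ, IsEig (Function.update V m t) a b E ψ ∧ κ ≤ ψ m ^ 2}
      ≤ volume (F '' (toMeasurable volume A ∩ S)) := measure_mono hsub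
    _ ≤ ∫⁻ x in toMeasurable volume A ∩ S,
        ENNReal.ofReal |(ContinuousLinearMap.toSpanSingleton ℝ (G x)).det| :=
      addHaar_image_le_lintegral_abs_det_fderiv volume hM hder
    _ ≤ ∫⁻ _x in toMeasurable volume A ∩ S, ENNReal.ofReal (1 / κ) := by
      refine setLIntegral_mono' hM ?_
      rintro x ⟨_, x1, x2, x3⟩
      apply ENNReal.ofReal_le_ofReal
      rw [ContinuousLinearMap.det_toSpanSingleton, abs_of_nonneg]
      · exact x3
      · simp only [hG]
        have n1 := Ws_nonneg wl x p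
        have n2 := Ws_nonneg wr x q
        positivity
    _ = ENNReal.ofReal (1 / κ) * volume (toMeasurable volume A ∩ S) := by
      rw [setLIntegral_const]
    _ ≤ ENNReal.ofReal (1 / κ) * volume A := by
      refine mul_le_mul_right ?_ _
      calc volume (toMeasurable volume A ∩ S) ≤ volume (toMeasurable volume A) :=
            measure_mono Set.inter_subset_left
        _ = volume A := measure_toMeasurable A

end Run7.h199.PP
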