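import Pool.Agent.Run7.h199.PP.SA
import Pool.Agent.H853R3.PP.TaskResample

/-!
# Spectral averaging, in probability (TaskSAP)
-/

set_option autoImplicit false

open scoped BigOperators ENNReal
open MeasureTheory

namespace Run7.h199.PP

open Pool.Agent.H695R3.PP

theorem U_le (s : Set ℝ) : U s ≤ ENNReal.ofReal (1 / 2) * volume s := by
  unfold U
  rw [Measure.smul_apply, smul_eq_mul]
  exact mul_le_mul_right (Measure.restrict_apply_le _ _) _

theorem U_affine (w ε : ℝ) (hε : 0 < ε) (T : Set ℝ) :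
    U {s | w + ε * s ∈ T} ≤ ENNReal.ofReal (1 / (2 * ε)) * volume T := by
  have h : {s | w + ε * s ∈ T} = (fun s => ε * s) ⁻¹' ((fun h => w + h) ⁻¹' T) := rfl
  refine (U_le _).trans ?_
  rw [h, Real.volume_preimage_mul_left hε.ne', measure_preimage_add, ← mul_assoc,
    ← ENNReal.ofReal_mul (by norm_num), abs_of_pos (inv_pos.2 hε)]
  apply le_of_eq
  congr 2
  field_simp

/-- the law of `x` conditional on all the coordinates except `m` -/
theorem PZ_resample (m : ℤ) (B : Set (ℤ → ℝ)) (hB : MeasurableSet B) :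
    PZ B = ∫⁻ x, U {s | Function.update x m s ∈ B} ∂PZ := by
  have h := Pool.Agent.H853R3.PP.Resample.taskResample ℤ (fun _ => ℝ) (fun _ => U) m
  have hm := Pool.Agent.H853R3.PP.Resample.measurable_upd (X := fun _ : ℤ => ℝ) m
  have h2 : PZ B = (PZ.prod U) ((fun p : (ℤ → ℝ) × ℝ => Function.update p.1 m p.2) ⁻¹' B) := by
    have h3 : Measure.map (fun p : (ℤ → ℝ) × ℝ => Function.update p.1 m p.2) (PZ.prod U) = PZ := h
    conv_lhs => rw [← h3]
    exact Measure.map_apply hm hB
  rw [h2, Measure.prod_apply (hm hB)]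
  rfl

theorem sap (h : TaskSA) : TaskSAP := by
  intro W ε κ a b m A B hε hκ hB hA hE
  rw [PZ_resample m B hB]
  refine lintegral_mono fun x => ?_
  set T : Set ℝ := {t : ℝ | ∃ E ∈ A x, ∃ ψ,
    IsEig (Function.update (fun n => W n + ε * x n) m t) a b E ψ ∧ κ ≤ ψ m ^ 2} with hT
  have hsub : {s | Function.update x m s ∈ B} ⊆ {s | W m + ε * s ∈ T} := by
    intro s hs
    obtain ⟨E, hEA, ψ, h1, h2⟩ := hE _ hs
    rw [hA] at hEA
    refine ⟨E, hEA, ψ, ?_, h2⟩
    have : (fun n => W n + ε * Function.update x m s n) =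
        Function.update (fun n => W n + ε * x n) m (W m + ε * s) := by
      funext n
      by_cases hn : n = m
      · subst hn; simp
      · simp [Function.update_of_ne hn]
    rwa [this] at h1
  calc U {s | Function.update x m s ∈ B} ≤ U {s | W m + ε * s ∈ T} := measure_mono hsub
    _ ≤ ENNReal.ofReal (1 / (2 * ε)) * volume T := U_affine _ _ hε T
    _ ≤ ENNReal.ofReal (1 / (2 * ε)) * (ENNReal.ofReal (1 / κ) * volume (A x)) :=
      mul_le_mul_right (h _ a b m (A x) κ hκ) _
    _ = ENNReal.ofReal (1 / (2 * ε * κ)) * volume (A x) := by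
      rw [← mul_assoc, ← ENNReal.ofReal_mul (by positivity)]
      congr 2
      field_simp

theorem sap' : TaskSAP := sap sa

end Run7.h199.PP
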